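import Pool.Agent.Helper4.SW.Two
import Pool.Agent.Helper4.SW.Cert

/-!
S-world: structural facts (S1)-(S5) of note 1131 (helper20): limits of the leg messages at the top
part, the alternation of the full functions `fs`, the explicit bounds from `fs 3`, and the extended
cone.
-/

set_option autoImplicit false

namespace Pool.Agent.Helper82.SW

open Pool.Agent.Helper6.HL hiding X
open Finset Polynomial
open Pool.Agent.Helper4.SW
open Pool.Agent.Helper31.SW (Per PerA per_step per_step' xx xx_zero xx_succ)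

variable {q : ℕ} {w : Fin q → ℝ} {y : ℝ}

theorem E_xx_fs (k : ℕ) : E (xx w y) (fs w y k) = Pw w y k := (Pw_fs w y k).symm

theorem fs_step' (k : ℕ) : fs w y (k + 1) = K' (xx w y) (fs w y k) := by
  funext i
  rw [fs_step, K'_apply, E_xx_fs]
  rfl

theorem fs_zero' : fs w y 0 = fun _ => 1 := by
  funext i
  refine Fin.cases ?_ (fun j => ?_) i
  · rw [fs_zero, l_zero]
  · rw [fs_succ, psi_zero, hat_one]

theorem xx_top (h : Hyp w y) {t : Fin q} (ht : ∀ i, w i ≤ w t) (i : Fin (q + 1)) :
    xx w y i ≤ xx w y t.succ :=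
  Fin.cases (h.lt t).le (fun i => ht i) i

theorem xx_nn (h : Hyp w y) (i : Fin (q + 1)) : 0 ≤ xx w y i :=
  (Pool.Agent.Helper31.SW.Hyp.xx_pos h i).le

theorem fs_cone (h : Hyp w y) (k : ℕ) : Cone (xx w y) (fs w y k) := by
  induction k with
  | zero => rw [fs_zero']; exact Cone.const (xx_nn h) zero_le_one
  | succ k ih => rw [fs_step']; exact ih.K' (xx_nn h)

theorem fs_pos (h : Hyp w y) (k : ℕ) (i : Fin (q + 1)) : 0 < fs w y k i := by
  refine Fin.cases ?_ (fun j => ?_) i
  · rw [fs_zero]; exact Pool.Agent.Helper31.SW.l_pos h k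
  · rw [fs_succ]; exact psi_pos h k j

/-! ### (S1), (S2) -/

theorem fs_lim (h : Hyp w y) {lam : ℝ} (hp : PerA w y lam) {t : Fin q} (ht : ∀ i, w i ≤ w t)
    (k : ℕ) :
    (Even k → ∀ i, (lam + xx w y i) * fs w y k i ≤ (lam + w t) * fs w y k t.succ) ∧
      (Odd k → ∀ i, (lam + w t) * fs w y k t.succ ≤ (lam + xx w y i) * fs w y k i) := by
  induction k with
  | zero =>
    refine ⟨fun _ i => ?_, fun hk => absurd hk (by simp)⟩
    rw [fs_zero']
    have := xx_top h ht i
    rw [xx_succ] at this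
    simp only [mul_one]
    linarith
  | succ k ih =>
    constructor
    · intro hk i
      have hk' : Odd k := by
        rcases Nat.even_or_odd k with h0 | h0
        · exact absurd hk (Nat.not_even_iff_odd.2 h0.add_one)
        · exact h0
      have h1 := per_step' hp (Pool.Agent.Helper31.SW.Hyp.xx_pos h) (xx_top h ht)
        (v := fs w y k) (fun i => by rw [xx_succ]; exact ih.2 hk' i) i
      rw [fs_step']
      rw [xx_succ] at h1
      exact h1
    · intro hk i
      have hk' : Even k := by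
        rcases Nat.even_or_odd k with h0 | h0
        · exact h0
        · exact absurd hk (Nat.not_odd_iff_even.2 h0.add_one)
      have h1 := per_step hp (Pool.Agent.Helper31.SW.Hyp.xx_pos h) (xx_top h ht)
        (v := fs w y k) (fun i => by rw [xx_succ]; exact ih.1 hk' i) i
      rw [fs_step']
      rw [xx_succ] at h1
      exact h1

/-- (S1), even legs -/
theorem psi_lim_even (h : Hyp w y) {lam : ℝ} (hp : PerA w y lam) {t : Fin q}
    (ht : ∀ i, w i ≤ w t) {k : ℕ} (hk : Even k) :
    (∀ i, (lam + w i) * hat w (psi w y k) i ≤ (lam + w t) * hat w (psi w y k) t) ∧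
      (lam + y) * l w y k ≤ (lam + w t) * hat w (psi w y k) t :=
  ⟨fun i => (fs_lim h hp ht k).1 hk i.succ, (fs_lim h hp ht k).1 hk 0⟩

/-- (S1), odd legs -/
theorem psi_lim_odd (h : Hyp w y) {lam : ℝ} (hp : PerA w y lam) {t : Fin q}
    (ht : ∀ i, w i ≤ w t) {k : ℕ} (hk : Odd k) :
    (∀ i, (lam + w t) * hat w (psi w y k) t ≤ (lam + w i) * hat w (psi w y k) i) ∧
      (lam + w t) * hat w (psi w y k) t ≤ (lam + y) * l w y k :=
  ⟨fun i => (fs_lim h hp ht k).2 hk i.succ, (fs_lim h hp ht k).2 hk 0⟩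

/-- (S2) -/
theorem Pw_lim_even (h : Hyp w y) {lam : ℝ} (hp : PerA w y lam) {t : Fin q}
    (ht : ∀ i, w i ≤ w t) {k : ℕ} (hk : Even k) :
    Pw w y k ≤ (lam + w t) * hat w (psi w y k) t := by
  have h1 := (fs_lim h hp ht k).1 hk
  rw [← E_xx_fs, E]
  have h2 : ∀ i, xx w y i * fs w y k i ≤
      xx w y i / (lam + xx w y i) * ((lam + w t) * fs w y k t.succ) := by
    intro i
    have hx := Pool.Agent.Helper31.SW.Hyp.xx_pos h i
    have h3 := add_pos hp.1 hx
    rw [div_mul_eq_mul_div, le_div_iff₀ h3]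
    have := mul_le_mul_of_nonneg_left (h1 i) hx.le
    linarith
  have h3 := sum_le_sum fun i (_ : i ∈ (univ : Finset (Fin (q + 1)))) => h2 i
  rw [← sum_mul, hp.2, one_mul] at h3
  exact h3

theorem Pw_lim_odd (h : Hyp w y) {lam : ℝ} (hp : PerA w y lam) {t : Fin q}
    (ht : ∀ i, w i ≤ w t) {k : ℕ} (hk : Odd k) :
    (lam + w t) * hat w (psi w y k) t ≤ Pw w y k := by
  have h1 := (fs_lim h hp ht k).2 hk
  rw [← E_xx_fs, E]
  have h2 : ∀ i, xx w y i / (lam + xx w y i) * ((lam + w t) * fs w y k t.succ) ≤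
      xx w y i * fs w y k i := by
    intro i
    have hx := Pool.Agent.Helper31.SW.Hyp.xx_pos h i
    have h3 := add_pos hp.1 hx
    rw [div_mul_eq_mul_div, div_le_iff₀ h3]
    have := mul_le_mul_of_nonneg_left (h1 i) hx.le
    linarith
  have h3 := sum_le_sum fun i (_ : i ∈ (univ : Finset (Fin (q + 1)))) => h2 i
  rw [← sum_mul, hp.2, one_mul] at h3
  exact h3

/-! ### (S3) -/

theorem sum_erase_lim (h : Hyp w y) {lam : ℝ} (hp : PerA w y lam) (t : Fin q) :
    ∑ i ∈ univ.erase t, w i * (w i - y) * ((lam + w t) / (lam + w i)) =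
      (1 - w t) * lam + (1 - w t + y) * w t - lam ^ 2 := by
  have hs := Pool.Agent.Helper31.SW.PerA.sum hp
  have hpos : ∀ i, 0 < lam + w i := fun i => add_pos hp.1 (h.pos i)
  have hy : 0 < lam + y := add_pos hp.1 h.hy
  have e1 : ∀ i, w i * (w i - y) * ((lam + w t) / (lam + w i)) =
      (lam + w t) * w i - (lam + w t) * (lam + y) * (w i / (lam + w i)) := by
    intro i
    have := (hpos i).ne'
    field_simp
    ring
  rw [sum_congr rfl fun i _ => e1 i, sum_sub_distrib, ← mul_sum, ← mul_sum]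
  have e2 : ∑ i ∈ univ.erase t, w i = 1 - w t := by
    have := add_sum_erase univ w (mem_univ t)
    rw [h.one] at this
    linarith
  have e3 : ∑ i ∈ univ.erase t, w i / (lam + w i) = 1 - y / (lam + y) - w t / (lam + w t) := by
    have := add_sum_erase univ (fun i => w i / (lam + w i)) (mem_univ t)
    linarith
  rw [e2, e3]
  have h1 := (hpos t).ne'
  have h2 := hy.ne'
  field_simp
  ring

/-! ### alternation of the full functions and (S4) -/

theorem K'_alt {n : ℕ} {x f g : Fin n → ℝ} {t : Fin n} (hx : ∀ i, 0 ≤ x i) (hft : 0 < f t)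
    (hf : ∀ i, 0 ≤ f i) (hxf : ∀ i, x i * f i ≤ x t * f t)
    (hfg : ∀ i, f i * g t ≤ g i * f t) (i : Fin n) :
    K' x g i * K' x f t ≤ K' x f i * K' x g t := by
  have hD : ∀ i, 0 ≤ g i * f t - f i * g t := fun i => sub_nonneg.2 (hfg i)
  have hE : E x (fun i => g i * f t - f i * g t) = E x g * f t - E x f * g t := by
    rw [E_sub]
    have e1 : E x (fun i => g i * f t) = E x g * f t := by
      simp only [E, sum_mul]; exact sum_congr rfl fun i _ => by ring
    have e2 : E x (fun i => f i * g t) = E x f * g t := by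
      simp only [E, sum_mul]; exact sum_congr rfl fun i _ => by ring
    rw [e1, e2]
  have hE0 := E_nonneg hx hD
  rw [hE] at hE0
  have hS := le_E hx hf t
  have key : f t * (K' x f i * K' x g t - K' x g i * K' x f t) =
      (E x g * f t - E x f * g t) * (x t * f t - x i * f i) +
        x i * (g i * f t - f i * g t) * (E x f - x t * f t) := by
    simp only [K'_apply]
    ring
  have h1 : 0 ≤ f t * (K' x f i * K' x g t - K' x g i * K' x f t) := by
    rw [key]
    exact add_nonneg (mul_nonneg hE0 (sub_nonneg.2 (hxf i)))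
      (mul_nonneg (mul_nonneg (hx i) (hD i)) (sub_nonneg.2 hS))
  have := nonneg_of_mul_nonneg_right h1 hft
  linarith

/-- alternation of the full functions at the top part -/
theorem fs_alt (h : Hyp w y) {t : Fin q} (ht : ∀ i, w i ≤ w t) (j k : ℕ) :
    (Even k → ∀ i, fs w y k i * fs w y (k + j) t.succ ≤ fs w y (k + j) i * fs w y k t.succ) ∧
      (Odd k → ∀ i, fs w y (k + j) i * fs w y k t.succ ≤
        fs w y k i * fs w y (k + j) t.succ) := by
  induction k with
  | zero =>
    refine ⟨fun _ i => ?_, fun hk => absurd hk (by simp)⟩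
    rw [fs_zero', zero_add, one_mul, mul_one]
    exact fs_anti h j i t.succ (xx_top h ht i)
  | succ k ih =>
    have e1 : k + 1 + j = k + j + 1 := by ring
    rw [e1, fs_step', fs_step']
    have hmono : ∀ k i, xx w y i * fs w y k i ≤ xx w y t.succ * fs w y k t.succ := fun k i =>
      (fs_cone h k).mono i t.succ (xx_top h ht i)
    constructor
    · intro hk i
      have hk' : Odd k := by
        rcases Nat.even_or_odd k with h0 | h0
        · exact absurd hk (Nat.not_even_iff_odd.2 h0.add_one)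
        · exact h0
      exact K'_alt (xx_nn h) (fs_pos h _ _) (fun i => (fs_pos h _ i).le) (hmono (k + j))
        (ih.2 hk') i
    · intro hk i
      have hk' : Even k := by
        rcases Nat.even_or_odd k with h0 | h0
        · exact h0
        · exact absurd hk (Nat.not_odd_iff_even.2 h0.add_one)
      exact K'_alt (xx_nn h) (fs_pos h _ _) (fun i => (fs_pos h _ i).le) (hmono k)
        (ih.1 hk') i

theorem sum_xx (f : ℝ → ℝ) (t : Fin q) :
    ∑ i, f (xx w y i) = f (w t) + (∑ i ∈ univ.erase t, f (w i) + f y) := by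
  rw [Fin.sum_univ_succ, ← add_sum_erase univ (fun i => f (xx w y (Fin.succ i))) (mem_univ t)]
  simp only [xx_zero, xx_succ]
  ring

theorem sum_xx_mul (h : Hyp w y) (t : Fin q) {s : ℝ} (hs : s = 1 - w t + y) :
    ∑ i ∈ univ.erase t, w i + y = s := by
  have := add_sum_erase univ w (mem_univ t)
  rw [h.one] at this
  linarith

theorem le_s (h : Hyp w y) (t : Fin q) {s : ℝ} (hs : s = 1 - w t + y) {i : Fin q} (hi : i ≠ t) :
    w i ≤ s := by
  have h1 := single_le_sum (f := w) (fun j _ => h.nn j) (mem_erase.2 ⟨hi, mem_univ i⟩)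
  have h2 := sum_xx_mul h t hs
  have := h.hy
  linarith

/-- (S4): explicit bounds at the top part for all legs with at least three vertices -/
theorem psi_three (h : Hyp w y) {t : Fin q} (ht : ∀ i, w i ≤ w t) {s z v kv : ℝ}
    (hs : s = 1 - w t + y) (hz : z = (∑ i ∈ univ.erase t, w i ^ 2 + y ^ 2) / s)
    (hv : v = w t - z) (hkv : kv = (s + v) / ((s + v) ^ 2 - w t * v)) :
    0 < s ∧ 0 < v ∧ z ≤ s ∧ 0 < (s + v) ^ 2 - w t * v ∧ 0 < kv ∧ ∀ k, 3 ≤ k →
      (∀ i, hat w (psi w y k) i ≤ (1 + kv * (w t - w i)) * hat w (psi w y k) t) ∧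
      l w y k ≤ (1 + kv * (w t - y)) * hat w (psi w y k) t ∧
      Pw w y k ≤ (1 + y + s * v * kv) * hat w (psi w y k) t := by
  have hy := h.hy
  have htop := top_half h ht
  have hwt : w t < 1 := by
    obtain ⟨i, hi⟩ : ∃ i : Fin q, i ≠ t := by
      have : Nontrivial (Fin q) := Fin.nontrivial_iff_two_le.2 h.two
      exact exists_ne t
    have h1 := single_le_sum (f := w) (fun j _ => h.nn j) (mem_erase.2 ⟨hi, mem_univ i⟩)
    have h2 := add_sum_erase univ w (mem_univ t)
    rw [h.one] at h2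
    have := h.pos i
    linarith
  have hs0 : 0 < s := by linarith
  set S2 := ∑ i ∈ univ.erase t, w i ^ 2 + y ^ 2 with hS2
  set S3 := ∑ i ∈ univ.erase t, w i ^ 3 + y ^ 3 with hS3
  have hzs : S2 = s * z := by rw [hz]; field_simp
  have hsum := sum_xx_mul h t hs
  have hys : y ≤ s := by linarith
  have hS2s : S2 ≤ s * s := by
    have h1 : ∀ i ∈ univ.erase t, w i ^ 2 ≤ s * w i := fun i hi => by
      have := le_s h t hs (mem_erase.1 hi).1
      have := h.nn i
      nlinarith
    have h2 := sum_le_sum h1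
    rw [← mul_sum] at h2
    have h3 : y ^ 2 ≤ s * y := by nlinarith
    have h4 : s * (∑ i ∈ univ.erase t, w i) + s * y = s * s := by rw [← mul_add, hsum]
    linarith
  have hzle : z ≤ s := by
    have : s * z ≤ s * s := by linarith
    exact le_of_mul_le_mul_left this hs0
  have hS3z : s * z ^ 2 ≤ S3 := by
    have h1 : ∀ i ∈ univ.erase t, 0 ≤ w i * (w i - z) ^ 2 := fun i _ =>
      mul_nonneg (h.nn i) (sq_nonneg _)
    have h2 := sum_nonneg h1
    have h3 : 0 ≤ y * (y - z) ^ 2 := mul_nonneg hy.le (sq_nonneg _)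
    have e1 : ∀ i, w i * (w i - z) ^ 2 = w i ^ 3 - 2 * z * w i ^ 2 + z ^ 2 * w i := fun i => by ring
    rw [sum_congr rfl fun i _ => e1 i, sum_add_distrib, sum_sub_distrib, ← mul_sum, ← mul_sum] at h2
    have h4 : ∑ i ∈ univ.erase t, w i = s - y := by linarith
    have h5 : ∑ i ∈ univ.erase t, w i ^ 2 = s * z - y ^ 2 := by linarith
    rw [h4, h5] at h2
    rw [hS3]
    nlinarith
  have hz0 : 0 ≤ z := by
    rw [hz]
    exact div_nonneg (add_nonneg (sum_nonneg fun i _ => sq_nonneg _) (sq_nonneg _)) hs0.le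
  have hX : w t = z + v := by linarith
  have hsX : s < w t := by linarith
  have hv0 : 0 < v := by linarith
  have hQ : 0 < (s + v) ^ 2 - w t * v := by rw [hX]; nlinarith
  have hkv0 : 0 < kv := by rw [hkv]; exact div_pos (by linarith) hQ
  have hkvQ : kv * ((s + v) ^ 2 - w t * v) = s + v := by
    rw [hkv, div_mul_cancel₀ _ hQ.ne']
  refine ⟨hs0, hv0, hzle, hQ, hkv0, ?_⟩
  -- power sums
  have p1 : ∑ i, xx w y i = 1 + y := by
    have := sum_xx (w := w) (y := y) (fun r => r) t
    rw [this]; linarith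
  have p2 : ∑ i, xx w y i ^ 2 = w t ^ 2 + S2 := sum_xx (w := w) (y := y) (fun r => r ^ 2) t
  have p3 : ∑ i, xx w y i ^ 3 = w t ^ 3 + S3 := sum_xx (w := w) (y := y) (fun r => r ^ 3) t
  have f1 : ∀ i, fs w y 1 i = 1 + y - xx w y i := by
    intro i
    rw [show (1 : ℕ) = 0 + 1 by rfl, fs_step', K'_apply, E_xx_fs, fs_zero', Pw_zero h, mul_one]
  have P1 : Pw w y 1 = (1 + y) ^ 2 - (w t ^ 2 + S2) := by
    rw [← E_xx_fs, E, sum_congr rfl fun i _ => by rw [f1 i]]
    have e1 : ∀ i, xx w y i * (1 + y - xx w y i) = (1 + y) * xx w y i - xx w y i ^ 2 :=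
      fun i => by ring
    rw [sum_congr rfl fun i _ => e1 i, sum_sub_distrib, ← mul_sum, p1, p2]
    ring
  have f2 : ∀ i, fs w y 2 i = Pw w y 1 - xx w y i * (1 + y - xx w y i) := by
    intro i
    rw [show (2 : ℕ) = 1 + 1 by rfl, fs_step', K'_apply, E_xx_fs, f1]
  have P2 : Pw w y 2 = Pw w y 1 * (1 + y) - (1 + y) * (w t ^ 2 + S2) + (w t ^ 3 + S3) := by
    rw [← E_xx_fs (w := w) (y := y) 2, E, sum_congr rfl fun i _ => by rw [f2 i]]
    have e1 : ∀ i, xx w y i * (Pw w y 1 - xx w y i * (1 + y - xx w y i)) =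
        Pw w y 1 * xx w y i - (1 + y) * xx w y i ^ 2 + xx w y i ^ 3 := fun i => by ring
    rw [sum_congr rfl fun i _ => e1 i, sum_add_distrib, sum_sub_distrib, ← mul_sum, ← mul_sum,
      p1, p2, p3]
  have f3 : ∀ i, fs w y 3 i = Pw w y 2 - xx w y i * fs w y 2 i := by
    intro i
    rw [show (3 : ℕ) = 2 + 1 by rfl, fs_step', K'_apply, E_xx_fs]
  have h1y : (1 : ℝ) = s + w t - y := by linarith
  have f3t : s * ((s + v) ^ 2 - w t * v) ≤ fs w y 3 t.succ := by
    rw [f3, f2, xx_succ, P2, P1, hzs, hX, h1y, hX]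
    nlinarith [hS3z]
  have f3i : ∀ i, fs w y 3 i ≤ (1 + kv * (w t - xx w y i)) * fs w y 3 t.succ := by
    intro i
    have hxt := xx_top h ht i
    rw [xx_succ] at hxt
    have hle : xx w y i ≤ s ∨ xx w y i = w t := by
      refine Fin.cases (Or.inl ?_) (fun j => ?_) i
      · rw [xx_zero]; exact hys
      · rw [xx_succ]
        rcases eq_or_ne j t with rfl | hj
        · exact Or.inr rfl
        · exact Or.inl (le_s h t hs hj)
    rcases hle with hle | heq
    · have hx0 := xx_nn h i
      have e1 : fs w y 3 i = fs w y 3 t.succ + (w t - xx w y i) *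
          (s * (s + v) - xx w y i * (s - xx w y i)) := by
        rw [f3, f3, f2, f2, xx_succ, P1, hzs, h1y, hX]
        ring
      have e2 : s * (s + v) ≤ kv * fs w y 3 t.succ := by
        have := mul_le_mul_of_nonneg_left f3t hkv0.le
        have e3 : kv * (s * ((s + v) ^ 2 - w t * v)) = s * (s + v) := by
          calc kv * (s * ((s + v) ^ 2 - w t * v)) = s * (kv * ((s + v) ^ 2 - w t * v)) := by ring
            _ = s * (s + v) := by rw [hkvQ]
        linarith
      have e4 : 0 ≤ xx w y i * (s - xx w y i) := mul_nonneg hx0 (sub_nonneg.2 hle)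
      have e5 : (w t - xx w y i) * (s * (s + v) - xx w y i * (s - xx w y i)) ≤
          (w t - xx w y i) * (kv * fs w y 3 t.succ) :=
        mul_le_mul_of_nonneg_left (by linarith) (sub_nonneg.2 hxt)
      rw [e1] at *
      nlinarith
    · rw [heq, sub_self, mul_zero, add_zero, one_mul]
      have : fs w y 3 i = fs w y 3 t.succ := by
        rw [f3, f3, f2, f2, xx_succ, heq]
      exact this.le
  intro k hk
  obtain ⟨j, rfl⟩ := Nat.exists_eq_add_of_le hk
  have ha := (fs_alt h ht j 3).2 (by decide)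
  have hall : ∀ i, fs w y (3 + j) i ≤ (1 + kv * (w t - xx w y i)) * fs w y (3 + j) t.succ := by
    intro i
    have h3 := fs_pos h 3 t.succ
    have hj := fs_pos h (3 + j) t.succ
    have h4 := (ha i).trans (mul_le_mul_of_nonneg_right (f3i i) hj.le)
    have h5 : fs w y (3 + j) i * fs w y 3 t.succ ≤
        ((1 + kv * (w t - xx w y i)) * fs w y (3 + j) t.succ) * fs w y 3 t.succ := by linarith
    exact le_of_mul_le_mul_right h5 h3
  refine ⟨fun i => hall i.succ, hall 0, ?_⟩
  rw [← E_xx_fs, E]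
  have h5 : ∀ i, xx w y i * fs w y (3 + j) i ≤
      ((1 + kv * w t) * xx w y i - kv * xx w y i ^ 2) * fs w y (3 + j) t.succ := by
    intro i
    have := mul_le_mul_of_nonneg_left (hall i) (xx_nn h i)
    linarith
  refine (sum_le_sum fun i _ => h5 i).trans ?_
  rw [← sum_mul, sum_sub_distrib, ← mul_sum, ← mul_sum, p1, p2]
  refine le_of_eq ?_
  have e6 : (1 + kv * w t) * (1 + y) - kv * (w t ^ 2 + S2) = 1 + y + s * v * kv := by
    have e7 : 1 + y = s + w t := by linarith
    rw [e7, hzs, hX]; ring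
  rw [e6]
  rfl

/-! ### (S5): the extended cone -/

theorem ext_cone_K' (h : Hyp w y) {t : Fin q} (ht : ∀ i, w i ≤ w t) {f : Fin q → ℝ}
    (hf : Cone w f) (i : Fin q) : (1 - w t) * K' w f i ≤ (1 - w i) * K' w f t := by
  rcases eq_or_ne i t with rfl | hit
  · exact le_rfl
  have hE : w i * f i + w t * f t + f t * (1 - w i - w t) ≤ E w f := by
    have e1 := add_sum_erase univ (fun j => w j * f j) (mem_univ t)
    have hi : i ∈ univ.erase t := mem_erase.2 ⟨hit, mem_univ i⟩
    have e2 := add_sum_erase (univ.erase t) (fun j => w j * f j) hi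
    have e3 := add_sum_erase univ w (mem_univ t)
    have e4 := add_sum_erase (univ.erase t) w hi
    rw [h.one] at e3
    have e5 : ∑ j ∈ (univ.erase t).erase i, f t * w j ≤
        ∑ j ∈ (univ.erase t).erase i, w j * f j := by
      refine sum_le_sum fun j _ => ?_
      have := mul_le_mul_of_nonneg_left (hf.anti j t (ht j)) (h.nn j)
      linarith
    rw [← mul_sum] at e5
    have e6 : ∑ j ∈ (univ.erase t).erase i, w j = 1 - w i - w t := by linarith
    rw [e6] at e5
    have e7 : E w f = ∑ j, w j * f j := rfl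
    rw [e7]
    linarith
  have hfi := hf.anti i t (ht i)
  have hwi := ht i
  have hwi0 := h.nn i
  have hwt0 := h.nn t
  rw [K'_apply, K'_apply]
  have h1 := mul_le_mul_of_nonneg_left hE (sub_nonneg.2 hwi)
  have h2 := mul_nonneg (mul_nonneg hwi0 (sub_nonneg.2 hfi)) (by
    have e3 := add_sum_erase univ w (mem_univ t)
    have hi : i ∈ univ.erase t := mem_erase.2 ⟨hit, mem_univ i⟩
    have e4 := single_le_sum (f := w) (fun j _ => h.nn j) hi
    rw [h.one] at e3
    linarith : 0 ≤ 1 - w i)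
  linarith

/-- (S5) -/
theorem ext_cone (h : Hyp w y) {t : Fin q} (ht : ∀ i, w i ≤ w t) {Λ : ℝ[X]} (hΛ : NN Λ)
    (i : Fin q) : (1 - w t) * hat w Λ i ≤ (1 - w i) * hat w Λ t := by
  have hpow : ∀ n : ℕ, Cone w (((K' w) ^ n) (fun _ => (1 : ℝ))) := by
    intro n
    induction n with
    | zero => exact Cone.const h.nn zero_le_one
    | succ n ih =>
      rw [pow_succ']
      exact ih.K' h.nn
  have hpow2 : ∀ n : ℕ, (1 - w t) * ((K' w) ^ n) (fun _ => (1 : ℝ)) i ≤
      (1 - w i) * ((K' w) ^ n) (fun _ => (1 : ℝ)) t := by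
    intro n
    cases n with
    | zero =>
      have := ht i
      simp only [pow_zero, Module.End.one_apply, mul_one]
      linarith
    | succ n =>
      rw [pow_succ']
      exact ext_cone_K' h ht (hpow n) i
  rw [hat_def, aeval_eq_sum_range, LinearMap.sum_apply, Finset.sum_apply, Finset.sum_apply,
    mul_sum, mul_sum]
  refine sum_le_sum fun n _ => ?_
  simp only [LinearMap.smul_apply, Pi.smul_apply, smul_eq_mul]
  have := mul_le_mul_of_nonneg_left (hpow2 n) (hΛ n)
  linarith

end Pool.Agent.Helper82.SW
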